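import Pool.Agent.Work.MP_6ac3f6_an.PF.Main

set_option autoImplicit false

namespace Pool.Agent.Results.MP_6ac3f6_an.PoleFreeBelowTwo

open Pool.Agent.Work.MP_6ac3f6_an

/-- For functions without poles the growth index is bounded by a constant smaller than two. -/
theorem result : ∃ c : ℝ, c < 2 ∧ ∀ f : ℂ → ℂ, DifferentiableOn ℂ f (Metric.ball 0 1) →
    (∀ z ∈ Metric.ball (0 : ℂ) 1, f z ≠ 0) → (∀ z ∈ Metric.ball (0 : ℂ) 1, deriv f z ≠ 1) →
    alpha f ≤ (c : EReal) := by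
  obtain ⟨c, hc, h⟩ := PF.alpha_lt
  exact ⟨c, hc, fun f h1 h2 h3 => h f ⟨h1, h2, h3⟩⟩

end Pool.Agent.Results.MP_6ac3f6_an.PoleFreeBelowTwo
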