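import Pool.Agent.Work.MP_6ac3f6_an.Lo.Main

set_option autoImplicit false

namespace Pool.Agent.Results.MP_6ac3f6_an.PoleFreeLowerOne

open Pool.Agent.Work.MP_6ac3f6_an

/-- The class contains a function without poles whose growth index is one. -/
theorem result :
    ∃ f : ℂ → ℂ, DifferentiableOn ℂ f (Metric.ball 0 1) ∧ InClass f ∧ alpha f = 1 :=
  Lo.poleFree

end Pool.Agent.Results.MP_6ac3f6_an.PoleFreeLowerOne
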