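import Pool.Agent.Work.MP_6ac3f6_an.Up6

set_option autoImplicit false

namespace Pool.Agent.Results.MP_6ac3f6_an.UpperNineteenThirds

open Pool.Agent.Work.MP_6ac3f6_an

/-- The best possible bound `A*` for the growth index on the class satisfies `A* ≤ 19/3`. -/
theorem result : sSup (alpha '' {f : ℂ → ℂ | InClass f}) ≤ ((19 / 3 : ℝ) : EReal) := by
  refine sSup_le ?_
  rintro _ ⟨f, hf, rfl⟩
  exact alpha_le hf

end Pool.Agent.Results.MP_6ac3f6_an.UpperNineteenThirds
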